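import Mathlib

namespace Pool.Agent.H.MP_696e10_co

/-- l is the vertex list of a simple path from u to v -/
def IsPathL {V : Type} (G : SimpleGraph V) (u v : V) (l : List V) : Prop :=
  l.IsChain G.Adj ∧ l.Nodup ∧ l.head? = some u ∧ l.getLast? = some v

/-- total weight of the edges of a path -/
def wt {V : Type} (w : Sym2 V → ℝ) (l : List V) : ℝ :=
  ((l.zip l.tail).map fun p => w s(p.1, p.2)).sum

/-- a consistent path system -/
def Consistent {V : Type} (G : SimpleGraph V) (P : V → V → List V) : Prop :=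
  (∀ u v, IsPathL G u v (P u v) ∧ P v u = (P u v).reverse) ∧
    ∀ u v x y, x ∈ P u v → y ∈ P u v → P x y <:+: P u v ∨ P y x <:+: P u v

/-- some positive edge weights make every chosen path a lightest one -/
def Metrizable {V : Type} (G : SimpleGraph V) (P : V → V → List V) : Prop :=
  ∃ w : Sym2 V → ℝ, (∀ e ∈ G.edgeSet, 0 < w e) ∧
    ∀ u v l, IsPathL G u v l → wt w (P u v) ≤ wt w l

/-- no partition into two nonempty parts both closed under the chosen paths -/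
def Irred {V : Type} (P : V → V → List V) : Prop :=
  ¬ ∃ A : Set V, A.Nonempty ∧ Aᶜ.Nonempty ∧ (∀ u ∈ A, ∀ v ∈ A, ∀ x ∈ P u v, x ∈ A) ∧
    ∀ u ∈ Aᶜ, ∀ v ∈ Aᶜ, ∀ x ∈ P u v, x ∈ Aᶜ

def K (i j : Fin 8) : Prop := (i.1 < 3 ∧ 3 ≤ j.1) ∨ (j.1 < 3 ∧ 3 ≤ i.1)

instance : DecidableRel K := fun _ _ => by unfold K; infer_instance

def Q : Fin 8 → Fin 8 → List (Fin 8) :=
  ![![[0], [0, 7, 1], [0, 6, 2], [0, 3], [0, 4], [0, 6, 2, 5], [0, 6], [0, 7]],
    ![[1, 7, 0], [1], [1, 7, 2], [1, 3], [1, 4], [1, 5], [1, 6], [1, 7]],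
    ![[2, 6, 0], [2, 7, 1], [2], [2, 3], [2, 6, 0, 4], [2, 5], [2, 6], [2, 7]],
    ![[3, 0], [3, 1], [3, 2], [3], [3, 1, 4], [3, 2, 5], [3, 0, 6], [3, 2, 7]],
    ![[4, 0], [4, 1], [4, 0, 6, 2], [4, 1, 3], [4], [4, 0, 6, 2, 5], [4, 0, 6], [4, 0, 7]],
    ![[5, 2, 6, 0], [5, 1], [5, 2], [5, 2, 3], [5, 2, 6, 0, 4], [5], [5, 2, 6], [5, 1, 7]],
    ![[6, 0], [6, 1], [6, 2], [6, 0, 3], [6, 0, 4], [6, 2, 5], [6], [6, 2, 7]],
    ![[7, 0], [7, 1], [7, 2], [7, 2, 3], [7, 0, 4], [7, 1, 5], [7, 2, 6], [7]]]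

lemma Q1 : ∀ i j, (Q i j).IsChain K ∧ (Q i j).Nodup ∧ (Q i j).head? = some i ∧
    (Q i j).getLast? = some j ∧ Q j i = (Q i j).reverse := by decide +kernel

lemma Q2 : ∀ i j, ∀ x ∈ Q i j, ∀ y ∈ Q i j, Q x y <:+: Q i j ∨ Q y x <:+: Q i j := by
  decide +kernel

lemma Q3 : ∀ i, Q i i = [i] := by decide +kernel

open Classical in
lemma det {V : Type} [AddCommGroup V] (G : SimpleGraph V) (φ : Fin 8 → V)
    (hφ : Function.Injective φ) (hadj : ∀ i j, K i j → G.Adj (φ i) (φ j))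
    (hC : ∀ u v, u ≠ v → ∃ m, m ∉ Set.range φ ∧ G.Adj u m ∧ G.Adj v m)
    (hR : ∀ A : Set V, A.Nonempty → Aᶜ.Nonempty → ∃ u v, u ∉ Set.range φ ∧ v ∉ Set.range φ ∧
      u ≠ v ∧ (u ∈ A ↔ v ∈ A) ∧ ¬ (u + v ∈ A ↔ u ∈ A) ∧ ¬ G.Adj u v ∧ G.Adj u (u + v) ∧
      G.Adj v (u + v)) :
    ∃ P, Consistent G P ∧ Irred P ∧ ¬ Metrizable G P := by
  obtain ⟨Z, hZ⟩ : ∃ Z, Z = Set.range φ := ⟨_, rfl⟩
  rw [← hZ] at hC hR
  obtain ⟨mid, m1, m2, m3⟩ : ∃ mid : V → V → V, (∀ u v, mid u v = mid v u) ∧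
      (∀ u v, u ≠ v → G.Adj u (mid u v) ∧ G.Adj v (mid u v) ∧ (mid u v ∈ Z → u ∉ Z ∧ v ∉ Z)) ∧
      ∀ u v, u ∉ Z → v ∉ Z → G.Adj u (u + v) → G.Adj v (u + v) → mid u v = u + v := by
    refine ⟨fun u v => if u ∉ Z ∧ v ∉ Z ∧ G.Adj u (u + v) ∧ G.Adj v (u + v) then u + v
      else Classical.epsilon fun m => m ∉ Z ∧ G.Adj u m ∧ G.Adj v m, ?_, ?_, ?_⟩
    · intro u v
      have e : (fun m => m ∉ Z ∧ G.Adj u m ∧ G.Adj v m) =
          fun m => m ∉ Z ∧ G.Adj v m ∧ G.Adj u m := by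
        funext m; exact propext (by tauto)
      simp only [e, add_comm v u]
      exact if_congr (by tauto) rfl rfl
    · intro u v huv
      have := Classical.epsilon_spec (hC u v huv)
      dsimp only
      split_ifs with h
      · exact ⟨h.2.2.1, h.2.2.2, fun _ => ⟨h.1, h.2.1⟩⟩
      · exact ⟨this.2.1, this.2.2, fun h => absurd h this.1⟩
    · intro u v h1 h2 h3 h4
      exact if_pos ⟨h1, h2, h3, h4⟩
  obtain ⟨P, p1, p2, p3, p4⟩ : ∃ P : V → V → List V,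
      (∀ i j, P (φ i) (φ j) = (Q i j).map φ) ∧ (∀ u, P u u = [u]) ∧
      (∀ u v, ¬ (u ∈ Z ∧ v ∈ Z) → G.Adj u v → P u v = [u, v]) ∧
      ∀ u v, ¬ (u ∈ Z ∧ v ∈ Z) → u ≠ v → ¬ G.Adj u v → P u v = [u, mid u v, v] := by
    have li := Function.leftInverse_invFun hφ
    refine ⟨fun u v => if u ∈ Z ∧ v ∈ Z then
      (Q (Function.invFun φ u) (Function.invFun φ v)).map φ else if u = v then [u] else
      if G.Adj u v then [u, v] else [u, mid u v, v], ?_, ?_, ?_, ?_⟩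
    · intro i j
      dsimp only
      rw [if_pos ⟨hZ ▸ ⟨i, rfl⟩, hZ ▸ ⟨j, rfl⟩⟩, li, li]
    · intro u
      dsimp only
      split_ifs with h h'
      · obtain ⟨i, rfl⟩ := hZ ▸ h.1
        rw [li, Q3]; rfl
      · rfl
      all_goals exact absurd rfl h'
    · intro u v h1 h2
      dsimp only
      rw [if_neg h1, if_neg h2.ne, if_pos h2]
    · intro u v h1 h2 h3
      dsimp only
      rw [if_neg h1, if_neg h2, if_neg h3]
  have cases4 : ∀ u v, (∃ i j, u = φ i ∧ v = φ j) ∨ u = v ∨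
      (¬ (u ∈ Z ∧ v ∈ Z) ∧ G.Adj u v) ∨ (¬ (u ∈ Z ∧ v ∈ Z) ∧ u ≠ v ∧ ¬ G.Adj u v) := by
    intro u v
    by_cases h : u ∈ Z ∧ v ∈ Z
    · obtain ⟨i, rfl⟩ := hZ ▸ h.1
      obtain ⟨j, rfl⟩ := hZ ▸ h.2
      exact Or.inl ⟨i, j, rfl, rfl⟩
    · tauto
  have hmap : ∀ l : List (Fin 8), l.IsChain K → l.Nodup → ∀ i j, l.head? = some i →
      l.getLast? = some j → IsPathL G (φ i) (φ j) (l.map φ) := fun l h1 h2 i j h3 h4 =>
    ⟨(List.isChain_map φ).2 (h1.imp fun a b h => hadj a b h), h2.map hφ, by simp [h3],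
      by simp [h4]⟩
  refine ⟨P, ⟨fun u v => ?_, fun u v x y hx hy => ?_⟩, ?_, ?_⟩
  · rcases cases4 u v with ⟨i, j, rfl, rfl⟩ | rfl | ⟨h1, h2⟩ | ⟨h1, h2, h3⟩
    · obtain ⟨a, b, c, d, e⟩ := Q1 i j
      rw [p1, p1, e, List.map_reverse]
      exact ⟨hmap _ a b _ _ c d, rfl⟩
    · rw [p2]
      simp [IsPathL]
    · rw [p3 u v h1 h2, p3 v u (by tauto) h2.symm]
      simp [IsPathL, h2, h2.ne]
    · obtain ⟨a, b, _⟩ := m2 u v h2
      rw [p4 u v h1 h2 h3, p4 v u (by tauto) h2.symm (fun h => h3 h.symm), m1 v u]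
      simp [IsPathL, a, b.symm, a.ne, b.ne', h2]
  · rcases cases4 u v with ⟨i, j, rfl, rfl⟩ | rfl | ⟨h1, h2⟩ | ⟨h1, h2, h3⟩
    · rw [p1] at hx hy ⊢
      obtain ⟨a, ha, rfl⟩ := List.mem_map.1 hx
      obtain ⟨b, hb, rfl⟩ := List.mem_map.1 hy
      rw [p1, p1]
      exact (Q2 i j a ha b hb).imp (·.map φ) (·.map φ)
    · rw [p2] at hx hy ⊢
      rw [List.mem_singleton.1 hx, List.mem_singleton.1 hy, p2]
      exact Or.inl List.infix_rfl
    · have e := p3 u v h1 h2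
      rw [e] at hx hy
      simp only [List.mem_cons, List.not_mem_nil, or_false] at hx hy
      rcases hx with rfl | rfl <;> rcases hy with rfl | rfl
      · rw [p2, e]; exact Or.inl ⟨[], [v], rfl⟩
      · exact Or.inl List.infix_rfl
      · exact Or.inr List.infix_rfl
      · rw [p2, e]; exact Or.inl ⟨[u], [], rfl⟩
    · obtain ⟨a, b, c⟩ := m2 u v h2
      have e := p4 u v h1 h2 h3
      have e1 := p3 u (mid u v) (by tauto) a
      have e2 := p3 (mid u v) v (by tauto) b.symm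
      rw [e] at hx hy
      simp only [List.mem_cons, List.not_mem_nil, or_false] at hx hy
      rcases hx with hx | hx | hx <;> rcases hy with hy | hy | hy <;> rw [hx, hy]
      · rw [p2, e]; exact Or.inl ⟨[], [mid u v, v], rfl⟩
      · rw [e1, e]; exact Or.inl ⟨[], [v], rfl⟩
      · exact Or.inl List.infix_rfl
      · rw [e1, e]; exact Or.inr ⟨[], [v], rfl⟩
      · rw [p2, e]; exact Or.inl ⟨[u], [v], rfl⟩
      · rw [e2, e]; exact Or.inl ⟨[u], [], rfl⟩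
      · exact Or.inr List.infix_rfl
      · rw [e2, e]; exact Or.inr ⟨[u], [], rfl⟩
      · rw [p2, e]; exact Or.inl ⟨[u, mid u v], [], rfl⟩
  · rintro ⟨A, h1, h2, h3, h4⟩
    obtain ⟨u, v, a, b, c, d, e, f, g, h⟩ := hR A h1 h2
    have hm : u + v ∈ P u v := by
      rw [p4 u v (by tauto) c f, m3 u v a b g h]; simp
    by_cases hu : u ∈ A
    · exact e ⟨fun _ => hu, fun _ => h3 u hu v (d.1 hu) _ hm⟩
    · exact e ⟨fun h' => absurd h' (h4 u hu v (fun hv => hu (d.2 hv)) _ hm), fun h' => absurd h' hu⟩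
  · rintro ⟨w, hw, h⟩
    have a1 := h _ _ _ (hmap [3, 0, 4] (by decide) (by decide) 3 4 rfl rfl)
    have a2 := h _ _ _ (hmap [3, 2, 6] (by decide) (by decide) 3 6 rfl rfl)
    have a3 := h _ _ _ (hmap [3, 1, 7] (by decide) (by decide) 3 7 rfl rfl)
    have a4 := h _ _ _ (hmap [4, 1, 5] (by decide) (by decide) 4 5 rfl rfl)
    have a5 := h _ _ _ (hmap [5, 2, 7] (by decide) (by decide) 5 7 rfl rfl)
    have a6 := hw s(φ 0, φ 6) (hadj 0 6 (by decide))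
    rw [p1] at a1 a2 a3 a4 a5
    have q1 : Q 3 4 = [3, 1, 4] := rfl
    have q2 : Q 3 6 = [3, 0, 6] := rfl
    have q3 : Q 3 7 = [3, 2, 7] := rfl
    have q4 : Q 4 5 = [4, 0, 6, 2, 5] := rfl
    have q5 : Q 5 7 = [5, 1, 7] := rfl
    rw [q1] at a1
    rw [q2] at a2
    rw [q3] at a3
    rw [q4] at a4
    rw [q5] at a5
    simp only [wt, List.map_cons, List.map_nil, List.tail_cons, List.zip_cons_cons,
      List.zip_nil_right, List.sum_cons, List.sum_nil] at a1 a2 a3 a4 a5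
    rw [Sym2.eq_swap (a := φ 4) (b := φ 0), Sym2.eq_swap (a := φ 6) (b := φ 2),
      Sym2.eq_swap (a := φ 4) (b := φ 1)] at a4
    rw [Sym2.eq_swap (a := φ 5) (b := φ 1), Sym2.eq_swap (a := φ 5) (b := φ 2)] at a5
    linarith

end Pool.Agent.H.MP_696e10_co
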