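import Pool.Agent.H.MP_696e10_co.A
import Pool.Agent.H.MP_3e5c62_pr.Prob

namespace Pool.Agent.H.MP_696e10_co

open Classical Finset Filter Topology Pool.Agent.H.MP_3e5c62_pr

lemma greedy {ι α : Type} [Fintype ι] [DecidableEq α] (T : Finset ι) (E : ι → Finset α)
    (h1 : ∀ i, (E i).Nonempty) (h2 : ∀ i, #(E i) ≤ 3) (h3 : ∀ e, #{i | e ∈ E i} ≤ 6) :
    ∃ S ⊆ T, (∀ i ∈ S, ∀ j ∈ S, i ≠ j → Disjoint (E i) (E j)) ∧ #T ≤ 18 * #S := by
  obtain ⟨S, hS, hm⟩ := exists_max_image
    {S ∈ T.powerset | ∀ i ∈ S, ∀ j ∈ S, i ≠ j → Disjoint (E i) (E j)} card ⟨∅, by simp⟩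
  simp only [mem_filter, mem_powerset] at hS hm
  refine ⟨S, hS.1, hS.2, ?_⟩
  have hs : T ⊆ S.biUnion fun j => (E j).biUnion fun e => {i | e ∈ E i} := by
    intro i hi
    simp only [mem_biUnion, mem_filter, mem_univ, true_and]
    by_cases hiS : i ∈ S
    · obtain ⟨e, he⟩ := h1 i
      exact ⟨i, hiS, e, he, he⟩
    by_contra hc
    push Not at hc
    have hd : ∀ j ∈ S, Disjoint (E j) (E i) := fun j hj => disjoint_left.2 (hc j hj)
    have := hm (insert i S) ⟨insert_subset hi hS.1, fun a ha b hb hab => by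
      rcases mem_insert.1 ha with rfl | ha' <;> rcases mem_insert.1 hb with rfl | hb'
      · exact absurd rfl hab
      · exact (hd b hb').symm
      · exact hd a ha'
      · exact hS.2 a ha' b hb' hab⟩
    rw [card_insert_of_notMem hiS] at this
    omega
  refine (card_le_card hs).trans ?_
  rw [mul_comm]
  refine card_biUnion_le_card_mul _ _ _ fun j _ => ?_
  exact (card_biUnion_le_card_mul _ _ _ fun e _ => h3 e).trans (by have := h2 j; omega)

variable {V : Type} [Fintype V] [DecidableEq V] [AddCommGroup V]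

def Bad (B : Finset V) (p : V × V) : Prop := (p.1 ∈ B ↔ p.2 ∈ B) ∧ ¬ (p.1 + p.2 ∈ B ↔ p.1 ∈ B)

lemma card_bad (B : Finset V) :
    (#{p : V × V | Bad B p} : ℤ) = #B * (Fintype.card V - #B) := by
  let f : V → ℤ := fun x => if x ∈ B then 1 else 0
  have s0 : ∑ x, f x = #B := by simp [f]
  have s1 : ∀ u, ∑ v, f (u + v) = #B := fun u => by
    rw [← s0]; exact Equiv.sum_comp (Equiv.addLeft u) f
  have s2 : ∀ v, ∑ u, f (u + v) = #B := fun v => by
    rw [← s0]; exact Equiv.sum_comp (Equiv.addRight v) f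
  have e : (#{p : V × V | Bad B p} : ℤ) =
      ∑ p : V × V, (f (p.1 + p.2) - f p.1 * f (p.1 + p.2) - f p.2 * f (p.1 + p.2) +
        f p.1 * f p.2) := by
    rw [card_filter]
    push_cast
    refine sum_congr rfl fun p _ => ?_
    by_cases a : p.1 ∈ B <;> by_cases b : p.2 ∈ B <;> by_cases c : p.1 + p.2 ∈ B <;>
      simp [f, Bad, a, b, c]
  rw [e, sum_add_distrib, sum_sub_distrib, sum_sub_distrib, Fintype.sum_prod_type,
    Fintype.sum_prod_type, Fintype.sum_prod_type_right, Fintype.sum_prod_type]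
  simp only [← mul_sum, s0, s1, s2, ← sum_mul, sum_const, card_univ, nsmul_eq_mul]
  ring

lemma fiber (B : Finset V) (u : V) : #{v | Bad B (u, v)} ≤ #B := by
  by_cases h : u ∈ B
  · refine card_le_card fun v hv => ?_
    simp only [mem_filter, mem_univ, true_and, Bad] at hv
    exact hv.1.1 h
  · refine card_le_card_of_injOn (fun v => u + v) (fun v hv => ?_) fun a _ b _ h => add_left_cancel h
    simp only [coe_filter, mem_univ, true_and, Bad, Set.mem_ofPred_eq] at hv
    have := hv.2
    simp only [mem_coe]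
    tauto

def Ok (φ : Fin 8 → V) (B : Finset V) (p : V × V) : Prop :=
  p.1 ∉ Set.range φ ∧ p.2 ∉ Set.range φ ∧ p.1 ≠ p.2 ∧ Bad B p

lemma card_ok (h2 : ∀ b : V, #{u | u + u = b} ≤ 2) (φ : Fin 8 → V) (B : Finset V) :
    #{p : V × V | Bad B p} ≤ #{p : V × V | Ok φ B p} + 19 * #B := by
  have hs : ({p : V × V | Bad B p} : Finset _) ⊆ ({p : V × V | Ok φ B p} : Finset _) ∪
      ((univ.biUnion fun i => ({v | Bad B (φ i, v)} : Finset V).image fun v => (φ i, v)) ∪
      ((univ.biUnion fun i => ({v | Bad B (φ i, v)} : Finset V).image fun v => (v, φ i)) ∪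
      ((B ∪ B.biUnion fun b => {u | u + u = b}).image fun u => (u, u)))) := by
    rintro ⟨u, v⟩ hp
    simp only [mem_filter, mem_univ, true_and] at hp
    simp only [mem_union, mem_filter, mem_univ, true_and, mem_biUnion, mem_image, Ok]
    by_cases a : u ∈ Set.range φ
    · obtain ⟨i, rfl⟩ := a
      exact Or.inr (Or.inl ⟨i, v, hp, rfl⟩)
    by_cases b : v ∈ Set.range φ
    · obtain ⟨i, rfl⟩ := b
      refine Or.inr (Or.inr (Or.inl ⟨i, u, ?_, rfl⟩))
      simp only [Bad, add_comm (φ i) u] at hp ⊢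
      tauto
    by_cases c : u = v
    · subst c
      refine Or.inr (Or.inr (Or.inr ⟨u, ?_, rfl⟩))
      by_cases d : u ∈ B
      · exact Or.inl d
      · refine Or.inr ⟨u + u, ?_, rfl⟩
        have := hp.2
        simp only at this
        tauto
    exact Or.inl ⟨a, b, c, hp⟩
  have a1 : ∀ g : Fin 8 → V → V × V,
      #(univ.biUnion fun i => ({v | Bad B (φ i, v)} : Finset V).image (g i)) ≤ 8 * #B := fun g =>
    (card_biUnion_le_card_mul _ _ _ fun i _ => card_image_le.trans (fiber B _)).trans (by simp)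
  have a2 : #((B ∪ B.biUnion fun b => {u | u + u = b}).image fun u => (u, u)) ≤ #B + #B * 2 :=
    card_image_le.trans ((card_union_le _ _).trans
      (Nat.add_le_add_left (card_biUnion_le_card_mul _ _ _ fun b _ => h2 b) _))
  have a3 := a1 fun i v => (φ i, v)
  have a4 := a1 fun i v => (v, φ i)
  refine (card_le_card hs).trans ((card_union_le _ _).trans (Nat.add_le_add_left ?_ _))
  refine (card_union_le _ _).trans ((Nat.add_le_add_left (card_union_le _ _) _).trans ?_)
  omega

def Ed (p : V × V) : Finset (Sym2 V) := {s(p.1, p.2), s(p.1, p.1 + p.2), s(p.2, p.1 + p.2)}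

lemma ed_fiber (e : Sym2 V) : #{p : V × V | e ∈ Ed p} ≤ 6 := by
  induction e using Sym2.ind with
  | _ x y =>
    refine (card_le_card (t := {(x, y), (y, x), (x, y - x), (y, x - y), (y - x, x), (x - y, y)})
      ?_).trans card_le_six
    rintro ⟨u, v⟩ hp
    simp only [mem_filter, mem_univ, true_and, Ed, mem_insert, mem_singleton, Sym2.eq_iff] at hp
    rcases hp with (⟨rfl, rfl⟩ | ⟨rfl, rfl⟩) | (⟨rfl, rfl⟩ | ⟨rfl, rfl⟩) | ⟨rfl, rfl⟩ | ⟨rfl, rfl⟩ <;>
      simp

def Hit (G : SimpleGraph V) (p : V × V) : Prop :=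
  ¬ G.Adj p.1 p.2 ∧ G.Adj p.1 (p.1 + p.2) ∧ G.Adj p.2 (p.1 + p.2)

omit [AddCommGroup V] in
lemma av3 {u v m : V} (h1 : u ≠ v) (h2 : u ≠ m) (h3 : v ≠ m) :
    av (fun G : SimpleGraph V => 1 - I (¬ G.Adj u v ∧ G.Adj u m ∧ G.Adj v m)) = 7 / 8 := by
  have a1 := av_mul (f := fun G : SimpleGraph V => I (G.Adj u m ↔ True))
    (g := fun G => I (G.Adj v m ↔ True)) (B := {s(u, m)})
    (fun G G' h => by simp only [h u m rfl])
    (fun G G' h => by simp only [h v m (by simp [h1.symm, h3])])
  have a2 := av_mul (f := fun G : SimpleGraph V => I (G.Adj u v ↔ False))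
    (g := fun G => I (G.Adj u m ↔ True) * I (G.Adj v m ↔ True)) (B := {s(u, v)})
    (fun G G' h => by simp only [h u v rfl])
    (fun G G' h => by simp only [h v m (by simp [h1.symm, h2.symm, h3.symm]),
      h u m (by simp [h1, h3.symm])])
  rw [a1, av_edge h1, av_edge h2, av_edge h3] at a2
  have e : (fun G : SimpleGraph V => I (G.Adj u v ↔ False) *
      (I (G.Adj u m ↔ True) * I (G.Adj v m ↔ True))) =
      fun G => I (¬ G.Adj u v ∧ G.Adj u m ∧ G.Adj v m) := by
    funext G
    by_cases a : G.Adj u v <;> by_cases b : G.Adj u m <;> by_cases c : G.Adj v m <;>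
      simp [I, a, b, c]
  rw [e] at a2
  have := card_pos' (V := V)
  unfold av at a2 ⊢
  rw [sum_sub_distrib, sub_div, a2]
  simp only [sum_const, card_univ, nsmul_eq_mul, mul_one]
  rw [div_self this.ne']
  norm_num

lemma miss (h2 : ∀ b : V, #{u | u + u = b} ≤ 2) (φ : Fin 8 → V) (B : Finset V) (r : ℕ)
    (hr : 18 * r + 19 + #B ≤ Fintype.card V) :
    (#{G : SimpleGraph V | ∀ p, Ok φ B p → ¬ Hit G p} : ℝ) ≤
      ((7 / 8) ^ r) ^ #B * Fintype.card (SimpleGraph V) := by
  obtain ⟨S, hS, hd, hc⟩ := greedy {p : V × V | Ok φ B p} Ed (fun p => ⟨_, mem_insert_self _ _⟩)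
    (fun p => card_le_three) ed_fiber
  have c1 := card_bad B
  have c2 := card_ok h2 φ B
  have c3 : r * #B ≤ #S := by
    have : (18 * r + 19 : ℤ) ≤ Fintype.card V - #B := by omega
    have := mul_le_mul_of_nonneg_left this (Int.natCast_nonneg #B)
    have : (r * #B : ℤ) ≤ #S := by
      have e : (#B : ℤ) * (18 * r + 19) = 18 * (r * #B) + 19 * #B := by ring
      omega
    exact_mod_cast this
  have hp := av_prod S (fun p G => 1 - I (Hit G p)) (fun p => (Ed p : Set (Sym2 V)))
    (fun p _ G G' h => by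
      simp only [Hit, h p.1 p.2 (by simp [Ed]), h p.1 (p.1 + p.2) (by simp [Ed]),
        h p.2 (p.1 + p.2) (by simp [Ed])])
    (fun i hi j hj hij => disjoint_coe.2 (hd i hi j hj hij))
  have hq : ∏ p ∈ S, av (fun G : SimpleGraph V => 1 - I (Hit G p)) = (7 / 8) ^ #S := by
    rw [← prod_const]
    refine prod_congr rfl fun p hp => ?_
    have := hS hp
    simp only [mem_filter, mem_univ, true_and, Ok, Bad] at this
    obtain ⟨_, _, a, b, c⟩ := this
    exact av3 a (fun h => c (by rw [← h])) fun h => c (by rw [← h]; exact b.symm)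
  rw [hq, av, div_eq_iff card_pos'.ne'] at hp
  calc _ ≤ ∑ G : SimpleGraph V, ∏ p ∈ S, (1 - I (Hit G p)) := by
        rw [card_filter]
        push_cast
        refine sum_le_sum fun G _ => ?_
        split_ifs with h
        · refine (prod_eq_one fun p hp => ?_).ge
          have := hS hp
          simp only [mem_filter, mem_univ, true_and] at this
          simp [I, h p this]
        · refine prod_nonneg fun p _ => ?_
          unfold I
          split_ifs <;> norm_num
    _ ≤ _ := by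
        rw [hp, ← pow_mul]
        exact mul_le_mul_of_nonneg_right
          (pow_le_pow_of_le_one (by norm_num) (by norm_num) c3) card_pos'.le

def Rich (G : SimpleGraph V) : Prop :=
  ∀ (φ : Fin 8 → V) (B : Finset V), B.Nonempty → 2 * #B ≤ Fintype.card V →
    ∃ p, Ok φ B p ∧ Hit G p

lemma poor (h2 : ∀ b : V, #{u | u + u = b} ≤ 2) (r : ℕ) (hr : 36 * r + 38 ≤ Fintype.card V)
    (hx : Fintype.card V * (7 / 8 : ℝ) ^ r ≤ 1) :
    (#{G : SimpleGraph V | ¬ Rich G} : ℝ) ≤
      2 * Fintype.card V ^ 9 * (7 / 8) ^ r * Fintype.card (SimpleGraph V) := by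
  have hs : ({G : SimpleGraph V | ¬ Rich G} : Finset _) ⊆
      univ.biUnion fun φ : Fin 8 → V =>
        ({B : Finset V | B.Nonempty ∧ 2 * #B ≤ Fintype.card V} : Finset _).biUnion fun B =>
          {G : SimpleGraph V | ∀ p, Ok φ B p → ¬ Hit G p} := by
    intro G hG
    simp only [mem_filter, mem_univ, true_and, Rich, mem_biUnion] at hG ⊢
    push Not at hG
    obtain ⟨φ, B, a, b, c⟩ := hG
    exact ⟨φ, B, ⟨a, b⟩, c⟩
  set ρ : ℝ := (7 / 8) ^ r with hρ
  have ρ0 : 0 ≤ ρ := by positivity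
  have s1 : ∑ B ∈ ({B : Finset V | B.Nonempty ∧ 2 * #B ≤ Fintype.card V} : Finset _), ρ ^ #B ≤
      2 * (Fintype.card V * ρ) := by
    have e1 := prod_one_add (s := (univ : Finset V)) (f := fun _ => ρ)
    simp only [prod_const, card_univ, powerset_univ] at e1
    have e2 : ∑ B ∈ ({B : Finset V | B.Nonempty ∧ 2 * #B ≤ Fintype.card V} : Finset _), ρ ^ #B ≤
        ∑ B ∈ (univ : Finset (Finset V)).erase ∅, ρ ^ #B := by
      refine sum_le_sum_of_subset_of_nonneg (fun B hB => ?_) fun _ _ _ => by positivity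
      simp only [mem_filter, mem_univ, true_and] at hB
      simpa using hB.1.ne_empty
    have e3 := add_sum_erase (univ : Finset (Finset V)) (fun B => ρ ^ #B) (mem_univ ∅)
    have e4 : (1 + ρ) ^ Fintype.card V ≤ Real.exp (Fintype.card V * ρ) := by
      rw [Real.exp_nat_mul]
      exact pow_le_pow_left₀ (by positivity) (by linarith [Real.add_one_le_exp ρ]) _
    have e5 := Real.abs_exp_sub_one_le (x := Fintype.card V * ρ)
      (by rwa [abs_of_nonneg (by positivity)])
    rw [abs_of_nonneg (a := Fintype.card V * ρ) (by positivity)] at e5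
    simp only [card_empty, pow_zero] at e3
    linarith [le_abs_self (Real.exp (Fintype.card V * ρ) - 1)]
  calc _ ≤ ∑ φ : Fin 8 → V,
        ∑ B ∈ ({B : Finset V | B.Nonempty ∧ 2 * #B ≤ Fintype.card V} : Finset _),
          (#{G : SimpleGraph V | ∀ p, Ok φ B p → ¬ Hit G p} : ℝ) := by
        exact_mod_cast (card_le_card hs).trans
          (card_biUnion_le.trans (sum_le_sum fun _ _ => card_biUnion_le))
    _ ≤ ∑ φ : Fin 8 → V, 2 * (Fintype.card V * ρ) * Fintype.card (SimpleGraph V) := by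
        refine sum_le_sum fun φ _ => le_trans (sum_le_sum fun B hB => miss h2 φ B r ?_) ?_
        · simp only [mem_filter, mem_univ, true_and] at hB
          omega
        · rw [← sum_mul]
          exact mul_le_mul_of_nonneg_right s1 card_pos'.le
    _ = _ := by
        simp only [sum_const, card_univ, Fintype.card_fun, Fintype.card_fin, nsmul_eq_mul]
        push_cast
        ring

end Pool.Agent.H.MP_696e10_co
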