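import Pool.Agent.H.MP_696e10_co.B

namespace Pool.Agent.H.MP_696e10_co

open Classical Finset Filter Topology Pool.Agent.H.MP_3e5c62_pr

lemma dbl (n : ℕ) [NeZero n] (b : Fin n) : #{u : Fin n | u + u = b} ≤ 2 := by
  refine (card_le_card_of_injOn (t := {b.1 / 2, (b.1 + n) / 2}) (fun u => u.1) (fun u hu => ?_)
    fun a _ c _ h => Fin.ext h).trans card_le_two
  have h : u + u = b := (mem_filter.1 (mem_coe.1 hu)).2
  have h1 := congrArg Fin.val h
  rw [Fin.val_add_eq_ite] at h1
  simp only [coe_insert, coe_singleton, Set.mem_insert_iff, Set.mem_singleton_iff]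
  split_ifs at h1 <;> omega

variable {V : Type} [Fintype V] [DecidableEq V]

lemma common {G : SimpleGraph V} (hG : Good (1 / 16) G) (hn : 200 ≤ Fintype.card V)
    (U : Finset V) (hU : #U ≤ 3) : 9 ≤ #{v ∈ Uᶜ | ∀ u ∈ U, G.Adj u v} := by
  have h := hG U U (by omega) (by omega)
  have e : ex G U U = #{v ∈ Uᶜ | ∀ u ∈ U, G.Adj u v} := by
    unfold ex
    congr 1
    exact filter_congr fun v _ => forall₂_congr fun u hu => by simp [hu]
  rw [e, abs_le] at h
  have h1 : (1 / 2 : ℝ) ^ 3 ≤ (1 / 2) ^ #U := pow_le_pow_of_le_one (by norm_num) (by norm_num) hU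
  have h2 : (Fintype.card V : ℝ) ≤ #Uᶜ + 3 := by
    have := card_add_card_compl U
    exact_mod_cast (by omega : Fintype.card V ≤ #Uᶜ + 3)
  have h3 : (200 : ℝ) ≤ Fintype.card V := by exact_mod_cast hn
  have h4 := mul_le_mul_of_nonneg_left h1 (Nat.cast_nonneg (α := ℝ) #Uᶜ)
  have : (9 : ℝ) ≤ #{v ∈ Uᶜ | ∀ u ∈ U, G.Adj u v} := by linarith [h.1]
  exact_mod_cast this

lemma main [AddCommGroup V] {G : SimpleGraph V} (hG : Good (1 / 16) G) (hR : Rich G)
    (hn : 200 ≤ Fintype.card V) : ∃ P, Consistent G P ∧ Irred P ∧ ¬ Metrizable G P := by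
  obtain ⟨U, -, hU⟩ := exists_subset_card_eq (s := (univ : Finset V)) (n := 3) (by simp; omega)
  obtain ⟨W, hW, hW5⟩ := exists_subset_card_eq (n := 5) ((by norm_num : 5 ≤ 9).trans
    (common hG hn U hU.le))
  let a := (U.equivFinOfCardEq hU).symm
  let c := (W.equivFinOfCardEq hW5).symm
  let φ : Fin 8 → V := fun i => if h : i.1 < 3 then a ⟨i.1, h⟩ else c ⟨i.1 - 3, by omega⟩
  have hW' : ∀ x : W, x.1 ∉ U ∧ ∀ u ∈ U, G.Adj u x := fun x => by
    simpa using hW x.2
  refine det G φ (fun i j h => ?_) (fun i j h => ?_) (fun u v huv => ?_) fun A h1 h2 => ?_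
  · simp only [φ] at h
    split_ifs at h with h1 h2 h2
    · have := a.injective (Subtype.ext h)
      simp only [Fin.mk.injEq] at this
      exact Fin.ext this
    · exact absurd (h ▸ (a _).2) (hW' _).1
    · exact absurd (h ▸ (a _).2) (hW' _).1
    · have := c.injective (Subtype.ext h)
      simp only [Fin.mk.injEq] at this
      exact Fin.ext (by omega)
  · rcases h with ⟨h1, h2⟩ | ⟨h1, h2⟩
    · simp only [φ, dif_pos h1, dif_neg (not_lt.2 h2)]
      exact (hW' _).2 _ (a _).2
    · simp only [φ, dif_pos h1, dif_neg (not_lt.2 h2)]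
      exact ((hW' _).2 _ (a _).2).symm
  · have h9 := common hG hn {u, v} (card_le_two.trans (by norm_num))
    have h8 : #(univ.image φ) ≤ 8 := card_image_le.trans (by simp)
    obtain ⟨m, hm, hm'⟩ := exists_mem_notMem_of_card_lt_card (lt_of_le_of_lt h8 h9)
    have := (mem_filter.1 hm).2
    exact ⟨m, by simpa using hm', this u (by simp), this v (by simp)⟩
  · have hc := card_add_card_compl A.toFinset
    by_cases h : 2 * #A.toFinset ≤ Fintype.card V
    · obtain ⟨p, ⟨a1, a2, a3, a4, a5⟩, a6⟩ := hR φ A.toFinset (by simpa using h1) h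
      simp only [Set.mem_toFinset] at a4 a5
      exact ⟨p.1, p.2, a1, a2, a3, a4, a5, a6⟩
    · obtain ⟨p, ⟨a1, a2, a3, a4, a5⟩, a6⟩ := hR φ A.toFinsetᶜ
        (by obtain ⟨x, hx⟩ := h2; exact ⟨x, by simpa using hx⟩) (by omega)
      simp only [mem_compl, Set.mem_toFinset] at a4 a5
      exact ⟨p.1, p.2, a1, a2, a3, by tauto, by tauto, a6⟩

lemma lim : Tendsto (fun n : ℕ => (n : ℝ) ^ 9 * (7 / 8) ^ ((n - 38) / 36)) atTop (𝓝 0) := by
  have t1 : Tendsto (fun n : ℕ => (n - 38) / 36) atTop atTop :=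
    tendsto_atTop_atTop.2 fun b => ⟨36 * b + 38, fun n hn => by omega⟩
  have t2 := ((tendsto_pow_const_mul_const_pow_of_abs_lt_one 9 (r := (7 / 8 : ℝ))
    (by rw [abs_of_pos] <;> norm_num)).comp t1).const_mul (110 ^ 9)
  rw [mul_zero] at t2
  refine squeeze_zero' (Eventually.of_forall fun n => by positivity) ?_ t2
  filter_upwards [eventually_ge_atTop 74] with n hn
  simp only [Function.comp]
  rw [← mul_assoc, ← mul_pow]
  have : (n : ℝ) ≤ 110 * (((n - 38) / 36 : ℕ) : ℝ) := by
    exact_mod_cast (by omega : n ≤ 110 * ((n - 38) / 36))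
  gcongr

theorem final : Tendsto (fun n : ℕ => (Nat.card {G : SimpleGraph (Fin n) //
    ∃ P, Consistent G P ∧ Irred P ∧ ¬ Metrizable G P} : ℝ) / (2 : ℝ) ^ (n.choose 2))
    atTop (𝓝 1) := by
  have t1 := almost (δ := 1 / 16) (by norm_num) (by norm_num) (fun n G => Good (1 / 16) G) 0
    fun _ _ _ h => h
  have t2 := t1.sub (lim.const_mul 2)
  rw [mul_zero, sub_zero] at t2
  have hc : ∀ n : ℕ, (Fintype.card (SimpleGraph (Fin n)) : ℝ) = 2 ^ n.choose 2 := by
    intro n
    rw [card_graphs]; simp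
  apply tendsto_of_tendsto_of_tendsto_of_le_of_le' t2 tendsto_const_nhds
  · filter_upwards [eventually_ge_atTop 200, lim.eventually (gt_mem_nhds one_pos)] with n hn hl
    have : NeZero n := ⟨by omega⟩
    have h1 : (1 : ℝ) ≤ n := by exact_mod_cast (by omega : 1 ≤ n)
    have b := poor (V := Fin n) (dbl n) ((n - 38) / 36) (by rw [Fintype.card_fin]; omega) (by
      rw [Fintype.card_fin]
      refine le_trans ?_ hl.le
      gcongr
      exact le_self_pow₀ h1 (by norm_num))
    rw [Fintype.card_fin, hc] at b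
    have c : Nat.card {G : SimpleGraph (Fin n) // Good (1 / 16) G} ≤
        Nat.card {G : SimpleGraph (Fin n) // ∃ P, Consistent G P ∧ Irred P ∧ ¬ Metrizable G P} +
        #{G : SimpleGraph (Fin n) | ¬ Rich G} := by
      rw [Nat.card_eq_fintype_card, Fintype.card_subtype, Nat.card_eq_fintype_card,
        Fintype.card_subtype]
      refine le_trans (card_le_card fun G hG => ?_) (card_union_le _ _)
      simp only [mem_union, mem_filter, mem_univ, true_and] at hG ⊢
      by_cases h : Rich G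
      · exact Or.inl (main hG h (by simpa using hn))
      · exact Or.inr h
    have c' := (Nat.cast_le (α := ℝ)).2 c
    push_cast at c'
    rw [sub_le_iff_le_add, div_add' _ _ _ (by positivity)]
    gcongr
    linarith
  · filter_upwards with n
    rw [div_le_one (by positivity), ← hc, Nat.card_eq_fintype_card]
    exact_mod_cast Fintype.card_subtype_le _

end Pool.Agent.H.MP_696e10_co
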